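import Mathlib

/-!
Colourings of the pairs of a finite set in which every colour class is a disjoint union of
cliques (points of the plane, colour of a pair = direction of the line through it): covering by
cliques of pairwise different colours.  Part a: configurations and the basic move.
-/

namespace H34RC

open Finset

variable {V K : Type*} [Fintype V] [DecidableEq V] [DecidableEq K]

/-- All pairs of distinct elements of `T` have colour `c`. -/
def Mono (col : V → V → K) (c : K) (T : Finset V) : Prop :=
  ∀ x ∈ T, ∀ y ∈ T, x ≠ y → col x y = c

/-- The set of points with label `c`. -/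
def cls (f : V → Option K) (c : K) : Finset V := univ.filter (fun x => f x = some c)

/-- The set of points without label. -/
def unc (f : V → Option K) : Finset V := univ.filter (fun x => f x = none)

/-- The set of labels in use. -/
def used (f : V → Option K) : Finset K := eraseNone (univ.image f)

/-- Every class is monochromatic of its own colour. -/
def Valid (col : V → V → K) (f : V → Option K) : Prop := ∀ c, Mono col c (cls f c)

/-- Number of lines needed by a configuration. -/
def cost (f : V → Option K) : ℕ := (unc f).card + (used f).card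

omit [DecidableEq V] [DecidableEq K] in
lemma mem_unc {f : V → Option K} {x : V} : x ∈ unc f ↔ f x = none := by
  simp [unc]

omit [DecidableEq V] in
lemma mem_cls {f : V → Option K} {c : K} {x : V} : x ∈ cls f c ↔ f x = some c := by
  simp [cls]

omit [DecidableEq V] in
lemma mem_used {f : V → Option K} {c : K} : c ∈ used f ↔ ∃ x, f x = some c := by
  simp [used, mem_eraseNone]

omit [DecidableEq V] in
lemma mem_used_iff {f : V → Option K} {c : K} : c ∈ used f ↔ (cls f c).Nonempty := by
  rw [mem_used]
  constructor
  · rintro ⟨x, hx⟩
    exact ⟨x, mem_cls.2 hx⟩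
  · rintro ⟨x, hx⟩
    exact ⟨x, mem_cls.1 hx⟩

omit [DecidableEq V] in
lemma not_used_cls {f : V → Option K} {c : K} (h : c ∉ used f) : cls f c = ∅ := by
  by_contra h2
  exact h (mem_used_iff.2 (nonempty_iff_ne_empty.2 h2))

lemma card_split (f : V → Option K) :
    Fintype.card V = (unc f).card + ∑ c ∈ used f, (cls f c).card := by
  classical
  have h1 : (univ : Finset V) = unc f ∪ (used f).biUnion (cls f) := by
    ext x
    simp only [mem_univ, mem_union, mem_biUnion, true_iff]
    rcases hx : f x with _ | c
    · exact Or.inl (mem_unc.2 hx)
    · exact Or.inr ⟨c, mem_used.2 ⟨x, hx⟩, mem_cls.2 hx⟩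
  have h2 : Disjoint (unc f) ((used f).biUnion (cls f)) := by
    rw [disjoint_left]
    intro x hx hx2
    rw [mem_biUnion] at hx2
    obtain ⟨c, -, hc⟩ := hx2
    rw [mem_unc] at hx
    rw [mem_cls, hx] at hc
    simp at hc
  have h3 : ((used f).biUnion (cls f)).card = ∑ c ∈ used f, (cls f c).card := by
    apply card_biUnion
    intro a _ b _ hab
    rw [Function.onFun, disjoint_left]
    intro x hx hx2
    rw [mem_cls] at hx hx2
    rw [hx] at hx2
    exact hab (Option.some_injective _ hx2)
  rw [← h3, ← card_union_of_disjoint h2, ← h1, card_univ]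

/-- Replace the class of `c` by `A`. -/
def setCls (g : V → Option K) (c : K) (A : Finset V) : V → Option K :=
  fun z => if z ∈ A then some c else if g z = some c then none else g z

lemma cls_setCls_same (g : V → Option K) (c : K) (A : Finset V) :
    cls (setCls g c A) c = A := by
  ext z
  rw [mem_cls, setCls]
  by_cases h : z ∈ A
  · simp [h]
  · by_cases h2 : g z = some c
    · simp [h, h2]
    · simp [h, h2]

lemma cls_setCls_ne {g : V → Option K} {c d : K} {A : Finset V}
    (hA : A ⊆ unc g ∪ cls g c) (hd : d ≠ c) :
    cls (setCls g c A) d = cls g d := by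
  ext z
  rw [mem_cls, mem_cls, setCls]
  by_cases h : z ∈ A
  · have h1 := hA h
    rw [mem_union, mem_unc, mem_cls] at h1
    simp only [h, if_true]
    constructor
    · intro h2
      exact absurd (Option.some_injective _ h2).symm hd
    · intro h2
      rcases h1 with h1 | h1
      · rw [h1] at h2; simp at h2
      · rw [h1] at h2
        exact absurd (Option.some_injective _ h2).symm hd
  · by_cases h2 : g z = some c
    · simp only [h, h2, if_false, if_true]
      constructor
      · intro h3; simp at h3
      · intro h3
        exact absurd (Option.some_injective _ h3).symm hd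
    · simp [h, h2]

lemma unc_setCls {g : V → Option K} {c : K} {A : Finset V} :
    unc (setCls g c A) = (unc g ∪ cls g c) \ A := by
  ext z
  rw [mem_unc, mem_sdiff, mem_union, mem_unc, mem_cls, setCls]
  by_cases h : z ∈ A
  · simp [h]
  · by_cases h2 : g z = some c
    · simp [h, h2]
    · simp [h, h2]

omit [DecidableEq V] in
lemma disj_unc_cls (g : V → Option K) (c : K) : Disjoint (unc g) (cls g c) := by
  rw [disjoint_left]
  intro x hx hx2
  rw [mem_unc] at hx
  rw [mem_cls, hx] at hx2
  simp at hx2

lemma unc_setCls_card {g : V → Option K} {c : K} {A : Finset V} (hA : A ⊆ unc g ∪ cls g c) :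
    (unc (setCls g c A)).card + A.card = (unc g).card + (cls g c).card := by
  rw [unc_setCls, card_sdiff_add_card_eq_card hA, card_union_of_disjoint (disj_unc_cls g c)]

lemma used_setCls {g : V → Option K} {c : K} {A : Finset V} (hA : A ⊆ unc g ∪ cls g c)
    (hne : A.Nonempty) : used (setCls g c A) = insert c (used g) := by
  ext d
  rw [mem_insert, mem_used_iff, mem_used_iff]
  by_cases h : d = c
  · subst h
    rw [cls_setCls_same]
    simp [hne]
  · rw [cls_setCls_ne hA h]
    simp [h]

lemma valid_setCls {col : V → V → K} {g : V → Option K} {c : K} {A : Finset V}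
    (hg : Valid col g) (hA : A ⊆ unc g ∪ cls g c) (hm : Mono col c A) :
    Valid col (setCls g c A) := by
  intro d
  by_cases h : d = c
  · subst h
    rw [cls_setCls_same]
    exact hm
  · rw [cls_setCls_ne hA h]
    exact hg d

/-- The classes of the frozen colours `Γ` are those of `f0`. -/
def Allowed (Γ : Finset K) (f0 g : V → Option K) : Prop := ∀ d ∈ Γ, cls g d = cls f0 d

lemma allowed_setCls {Γ : Finset K} {f0 g : V → Option K} {c : K} {A : Finset V}
    (hg : Allowed Γ f0 g) (hA : A ⊆ unc g ∪ cls g c) (hc : c ∉ Γ) :
    Allowed Γ f0 (setCls g c A) := by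
  intro d hd
  have h : d ≠ c := by
    rintro rfl
    exact hc hd
  rw [cls_setCls_ne hA h]
  exact hg d hd

/-- In a configuration of minimal cost a used class cannot be enlarged. -/
lemma imp_used {col : V → V → K} {Γ : Finset K} {f0 g : V → Option K} {N : ℕ}
    (hmin : ∀ h, Valid col h → Allowed Γ f0 h → N ≤ cost h)
    (hv : Valid col g) (ha : Allowed Γ f0 g) (hN : cost g = N)
    {c : K} (hc : c ∉ Γ) (hcu : c ∈ used g) {A : Finset V}
    (hA : A ⊆ unc g ∪ cls g c) (hm : Mono col c A) : A.card ≤ (cls g c).card := by
  by_contra hlt
  push Not at hlt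
  have hne : A.Nonempty := by
    rw [← card_pos]
    omega
  have h1 := hmin _ (valid_setCls hv hA hm) (allowed_setCls ha hA hc)
  have h2 := unc_setCls_card hA
  have h3 : (used (setCls g c A)).card = (used g).card := by
    rw [used_setCls hA hne, insert_eq_of_mem hcu]
  unfold cost at h1 hN
  omega

/-- In a configuration of minimal cost an unused colour has no pair of free points. -/
lemma imp_unused {col : V → V → K} {Γ : Finset K} {f0 g : V → Option K} {N : ℕ}
    (hmin : ∀ h, Valid col h → Allowed Γ f0 h → N ≤ cost h)
    (hv : Valid col g) (ha : Allowed Γ f0 g) (hN : cost g = N)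
    {c : K} (hc : c ∉ Γ) (hcu : c ∉ used g) {A : Finset V}
    (hA : A ⊆ unc g) (hm : Mono col c A) : A.card ≤ 1 := by
  by_contra hlt
  push Not at hlt
  have hne : A.Nonempty := by
    rw [← card_pos]
    omega
  have hA' : A ⊆ unc g ∪ cls g c := hA.trans subset_union_left
  have h1 := hmin _ (valid_setCls hv hA' hm) (allowed_setCls ha hA' hc)
  have h2 := unc_setCls_card hA'
  have h3 : (used (setCls g c A)).card = (used g).card + 1 := by
    rw [used_setCls hA' hne, card_insert_of_notMem hcu]
  rw [not_used_cls hcu] at h2
  simp only [card_empty, add_zero] at h2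
  unfold cost at h1 hN
  omega

end H34RC
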