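import Pool.Agent.H34.RCa

/-!
Part b: freeable sets of points, the tests that minimality gives, and the count of pairs.
-/

namespace H34RC

open Finset

variable {V K : Type*} [Fintype V] [DecidableEq V] [DecidableEq K]

/-- Small subsets of `F` can be freed without changing the classes of few given colours. -/
def Freeable (col : V → V → K) (Γ : Finset K) (f0 f : V → Option K) (F : Finset V) (R : ℕ) :
    Prop :=
  ∀ (T : Finset V) (D : Finset K), T ⊆ F → T.card + ∑ d ∈ D, (cls f d).card ≤ R →
    (∀ x ∈ T, ∀ d ∈ D, f x ≠ some d) →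
    ∃ g, Valid col g ∧ Allowed Γ f0 g ∧ used g = used f ∧ (unc g).card = (unc f).card ∧
      T ⊆ unc g ∧ ∀ d ∈ D, cls g d = cls f d

/-- The standing situation: `f` has minimal cost among the configurations that agree with `f0` on
the colours of `Γ`. -/
structure Base (col : V → V → K) (Γ : Finset K) (f0 f : V → Option K) (q : ℕ) : Prop where
  symm : ∀ x y, col x y = col y x
  trans : ∀ x y z, x ≠ y → y ≠ z → x ≠ z → col x y = col y z → col x z = col x y
  valid : Valid col f
  allowed : Allowed Γ f0 f
  minimal : ∀ h, Valid col h → Allowed Γ f0 h → cost f ≤ cost h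
  gam : Γ = used f0
  big1 : ∀ c ∈ Γ, ∀ T, Mono col c T → T ⊆ unc f0 → T.card ≤ (cls f0 c).card
  big2 : ∀ c, c ∉ Γ → ∀ T, Mono col c T → T ⊆ unc f0 → T.card < q
  big3 : ∀ c ∈ Γ, q ≤ (cls f0 c).card
  two : ∀ c ∈ used f, 2 ≤ (cls f c).card
  hq : 2 ≤ q

variable {col : V → V → K} {Γ : Finset K} {f0 f : V → Option K} {q : ℕ}

omit [DecidableEq V] in
lemma Base.free0 (B : Base col Γ f0 f q) {x : V} (h : ∀ d ∈ Γ, f x ≠ some d) : f0 x = none := by
  rcases hx : f0 x with _ | d
  · rfl
  · exfalso
    have hd : d ∈ Γ := by
      rw [B.gam]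
      exact mem_used.2 ⟨x, hx⟩
    have h2 : x ∈ cls f d := by
      rw [B.allowed d hd]
      exact mem_cls.2 hx
    exact h d hd (mem_cls.1 h2)

omit [DecidableEq V] in
lemma Base.unc_sub (B : Base col Γ f0 f q) : unc f ⊆ unc f0 := by
  intro x hx
  rw [mem_unc] at hx ⊢
  apply B.free0
  intro d _ h
  rw [hx] at h
  simp at h

omit [DecidableEq V] in
lemma Base.cls_sub (B : Base col Γ f0 f q) {c : K} (hc : c ∉ Γ) : cls f c ⊆ unc f0 := by
  intro x hx
  rw [mem_cls] at hx
  rw [mem_unc]
  apply B.free0
  intro d hd h
  rw [hx] at h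
  rw [Option.some_injective _ h] at hc
  exact hc hd

omit [DecidableEq V] in
lemma Base.cls_lt (B : Base col Γ f0 f q) {c : K} (hc : c ∉ Γ) : (cls f c).card < q :=
  B.big2 c hc _ (B.valid c) (B.cls_sub hc)

lemma freeable_mono {F F' : Finset V} {R R' : ℕ} (h : Freeable col Γ f0 f F R)
    (hF : F' ⊆ F) (hR : R' ≤ R) : Freeable col Γ f0 f F' R' := by
  intro T D hT hc hd
  exact h T D (hT.trans hF) (hc.trans hR) hd

lemma Base.freeable_unc (B : Base col Γ f0 f q) (R : ℕ) : Freeable col Γ f0 f (unc f) R := by
  intro T D hT _ _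
  exact ⟨f, B.valid, B.allowed, rfl, rfl, hT, fun _ _ => rfl⟩

/-- Minimality bounds the lines inside a freeable set. -/
lemma Base.testLine (B : Base col Γ f0 f q) {F : Finset V} {R : ℕ}
    (hF : Freeable col Γ f0 f F R) (hF0 : F ⊆ unc f0) (hR : 2 * q + 1 ≤ R)
    {c : K} (hc : c ∈ used f) {T : Finset V} (hT : T ⊆ F) (hm : Mono col c T) :
    T.card ≤ (cls f c).card := by
  by_cases hcΓ : c ∈ Γ
  · rw [B.allowed c hcΓ]
    exact B.big1 c hcΓ T hm (hT.trans hF0)
  have hs := B.cls_lt hcΓ
  by_contra hlt
  push Not at hlt
  obtain ⟨T', hT', hcard⟩ := exists_subset_card_eq (s := T) (n := (cls f c).card + 1) (by omega)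
  have hm' : Mono col c T' := fun x hx y hy hxy => hm x (hT' hx) y (hT' hy) hxy
  by_cases hx : ∃ x ∈ T', f x = some c
  · obtain ⟨x, hxT, hxc⟩ := hx
    have hy : ∃ y ∈ T', f y ≠ some c := by
      by_contra hno
      push Not at hno
      have h1 : T' ⊆ cls f c := fun y hy => mem_cls.2 (hno y hy)
      have h2 := card_le_card h1
      omega
    obtain ⟨y, hyT, hyc⟩ := hy
    obtain ⟨g, hgv, hga, hgu, hgc, hgT, hgD⟩ := hF {y} {c}
      (by
        intro z hz
        rw [mem_singleton] at hz
        rw [hz]
        exact hT (hT' hyT))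
      (by
        rw [card_singleton, sum_singleton]
        omega)
      (by
        intro z hz d hd
        rw [mem_singleton] at hz hd
        rw [hz, hd]
        exact hyc)
    have hcost : cost g = cost f := by
      unfold cost
      rw [hgu, hgc]
    have hgcc : cls g c = cls f c := hgD c (mem_singleton_self c)
    have hA : insert y (cls f c) ⊆ unc g ∪ cls g c := by
      intro z hz
      rw [mem_insert] at hz
      rw [mem_union]
      rcases hz with hz | hz
      · left
        rw [hz]
        exact hgT (mem_singleton_self y)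
      · right
        rw [hgcc]
        exact hz
    have hxy : x ≠ y := by
      rintro rfl
      exact hyc hxc
    have key : ∀ z ∈ cls f c, col y z = c := by
      intro z hz
      by_cases hzx : z = x
      · rw [hzx]
        exact hm' y hyT x hxT (Ne.symm hxy)
      · have h1 : col y x = c := hm' y hyT x hxT (Ne.symm hxy)
        have h2 : col x z = c := B.valid c x (mem_cls.2 hxc) z hz (Ne.symm hzx)
        have hyz : y ≠ z := by
          rintro rfl
          exact hyc (mem_cls.1 hz)
        rw [B.trans y x z (Ne.symm hxy) (Ne.symm hzx) hyz (by rw [h1, h2]), h1]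
    have hmA : Mono col c (insert y (cls f c)) := by
      intro a ha b hb hab
      rw [mem_insert] at ha hb
      rcases ha with ha | ha <;> rcases hb with hb | hb
      · exact absurd (ha.trans hb.symm) hab
      · rw [ha]
        exact key b hb
      · rw [hb, B.symm]
        exact key a ha
      · exact B.valid c a ha b hb hab
    have h3 := imp_used B.minimal hgv hga hcost hcΓ (by rw [hgu]; exact hc) hA hmA
    rw [hgcc, card_insert_of_notMem (by rw [mem_cls]; exact hyc)] at h3
    omega
  · push Not at hx
    obtain ⟨g, hgv, hga, hgu, hgc, hgT, hgD⟩ := hF T' {c}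
      (hT'.trans hT)
      (by
        rw [sum_singleton]
        omega)
      (by
        intro z hz d hd
        rw [mem_singleton] at hd
        rw [hd]
        exact hx z hz)
    have hcost : cost g = cost f := by
      unfold cost
      rw [hgu, hgc]
    have hgcc : cls g c = cls f c := hgD c (mem_singleton_self c)
    have h3 := imp_used B.minimal hgv hga hcost hcΓ (by rw [hgu]; exact hc)
      (hgT.trans subset_union_left) hm'
    rw [hgcc] at h3
    omega

/-- Minimality: every colour inside a freeable set is in use. -/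
lemma Base.testPair (B : Base col Γ f0 f q) {F : Finset V} {R : ℕ}
    (hF : Freeable col Γ f0 f F R) (hR : 2 * q + 1 ≤ R)
    {x y : V} (hx : x ∈ F) (hy : y ∈ F) (hxy : x ≠ y) : col x y ∈ used f := by
  have hq := B.hq
  by_contra hcu
  have hcΓ : col x y ∉ Γ := by
    intro h
    apply hcu
    rw [mem_used_iff, B.allowed _ h, ← card_pos]
    have := B.big3 _ h
    omega
  obtain ⟨g, hgv, hga, hgu, hgc, hgT, -⟩ := hF {x, y} ∅
    (by
      intro z hz
      rw [mem_insert, mem_singleton] at hz
      rcases hz with hz | hz <;> rw [hz] <;> assumption)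
    (by
      rw [sum_empty, card_pair hxy]
      omega)
    (by
      intro z _ d hd
      simp at hd)
  have hcost : cost g = cost f := by
    unfold cost
    rw [hgu, hgc]
  have hm : Mono col (col x y) {x, y} := by
    intro a ha b hb hab
    rw [mem_insert, mem_singleton] at ha hb
    rcases ha with ha | ha <;> rcases hb with hb | hb
    · exact absurd (ha.trans hb.symm) hab
    · rw [ha, hb]
    · rw [ha, hb, B.symm]
    · exact absurd (ha.trans hb.symm) hab
  have h3 := imp_unused B.minimal hgv hga hcost hcΓ (by rw [hgu]; exact hcu) hgT hm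
  rw [card_pair hxy] at h3
  omega

/-- Number of other points of `F` on the line of colour `c` through `x`. -/
def deg (col : V → V → K) (F : Finset V) (c : K) (x : V) : ℕ :=
  ((F.erase x).filter (fun y => col x y = c)).card

/-- The line of colour `c` through `x`, inside `F`. -/
def line (col : V → V → K) (F : Finset V) (c : K) (x : V) : Finset V :=
  insert x ((F.erase x).filter (fun y => col x y = c))

lemma line_card (F : Finset V) (c : K) (x : V) : (line col F c x).card = deg col F c x + 1 := by
  unfold line deg
  rw [card_insert_of_notMem]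
  simp

lemma line_sub {F : Finset V} {c : K} {x : V} (hx : x ∈ F) : line col F c x ⊆ F := by
  intro y hy
  unfold line at hy
  rw [mem_insert, mem_filter, mem_erase] at hy
  rcases hy with rfl | hy
  · exact hx
  · exact hy.1.2

lemma Base.line_mono (B : Base col Γ f0 f q) (F : Finset V) (c : K) (x : V) :
    Mono col c (line col F c x) := by
  intro a ha b hb hab
  unfold line at ha hb
  rw [mem_insert, mem_filter, mem_erase] at ha hb
  rcases ha with rfl | ha <;> rcases hb with rfl | hb
  · exact absurd rfl hab
  · exact hb.2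
  · rw [B.symm]
    exact ha.2
  · have h1 : col a x = c := by rw [B.symm]; exact ha.2
    rw [B.trans a x b ha.1.1 (Ne.symm hb.1.1) hab (by rw [h1, hb.2]), h1]

lemma Base.deg_le (B : Base col Γ f0 f q) {F : Finset V} {R : ℕ}
    (hF : Freeable col Γ f0 f F R) (hF0 : F ⊆ unc f0) (hR : 2 * q + 1 ≤ R)
    {c : K} (hc : c ∈ used f) {x : V} (hx : x ∈ F) :
    deg col F c x + 1 ≤ (cls f c).card := by
  rw [← line_card]
  exact B.testLine hF hF0 hR hc (line_sub hx) (B.line_mono F c x)

/-- Points of `F` whose line of colour `c` is as long as the class of `c`. -/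
def rich (col : V → V → K) (f : V → Option K) (F : Finset V) (c : K) : Finset V :=
  F.filter (fun x => (cls f c).card ≤ deg col F c x + 1)

/-- The exchangeable colours. -/
def exch (col : V → V → K) (Γ : Finset K) (f : V → Option K) (F : Finset V) (L M : ℕ) :
    Finset K :=
  (used f).filter (fun c => c ∉ Γ ∧ (cls f c).card ≤ L ∧ M ≤ (rich col f F c).card)

/-- The count of pairs. -/
lemma Base.count (B : Base col Γ f0 f q) {F : Finset V} {R : ℕ}
    (hF : Freeable col Γ f0 f F R) (hF0 : F ⊆ unc f0) (hR : 2 * q + 1 ≤ R) (L M : ℕ) :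
    F.card * (F.card - 1) ≤ F.card * (∑ c ∈ used f, ((cls f c).card - 2))
      + F.card * (Γ.card + ((used f).filter (fun c => L < (cls f c).card)).card
        + (exch col Γ f F L M).card) + M * (used f).card := by
  classical
  -- the total
  have h1 : F.card * (F.card - 1) = ∑ c ∈ used f, ∑ x ∈ F, deg col F c x := by
    rw [sum_comm, ← smul_eq_mul, ← sum_const]
    apply sum_congr rfl
    intro x hx
    rw [← card_erase_of_mem hx]
    unfold deg
    apply card_eq_sum_card_fiberwise
    intro y hy
    rw [mem_coe, mem_erase] at hy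
    rw [mem_coe]
    exact B.testPair hF hR hx hy.2 (Ne.symm hy.1)
  -- each colour
  have h2 : ∀ c ∈ used f, ∑ x ∈ F, deg col F c x ≤ F.card * ((cls f c).card - 2)
      + (if c ∈ Γ ∨ L < (cls f c).card ∨ c ∈ exch col Γ f F L M then F.card else 0) + M := by
    intro c hc
    have h2c := B.two c hc
    by_cases hP : c ∈ Γ ∨ L < (cls f c).card ∨ c ∈ exch col Γ f F L M
    · rw [if_pos hP]
      have h3 : ∑ x ∈ F, deg col F c x ≤ ∑ x ∈ F, (((cls f c).card - 2) + 1) := by
        apply sum_le_sum
        intro x hx
        have := B.deg_le hF hF0 hR hc hx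
        omega
      rw [sum_const, smul_eq_mul, mul_add, mul_one] at h3
      omega
    · rw [if_neg hP]
      push Not at hP
      have h3 : ∑ x ∈ F, deg col F c x ≤ ∑ x ∈ F, (((cls f c).card - 2)
          + (if (cls f c).card ≤ deg col F c x + 1 then 1 else 0)) := by
        apply sum_le_sum
        intro x hx
        have := B.deg_le hF hF0 hR hc hx
        split_ifs <;> omega
      rw [sum_add_distrib, sum_const, smul_eq_mul, ← card_filter] at h3
      have h4 : (F.filter (fun x => (cls f c).card ≤ deg col F c x + 1)).card ≤ M := by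
        by_contra hM
        push Not at hM
        apply hP.2.2
        unfold exch
        rw [mem_filter]
        exact ⟨hc, hP.1, hP.2.1, hM.le⟩
      omega
  rw [h1]
  refine (sum_le_sum h2).trans ?_
  rw [sum_add_distrib, sum_add_distrib, sum_const, smul_eq_mul, ← mul_sum, mul_comm M]
  have h5 : ∑ c ∈ used f, (if c ∈ Γ ∨ L < (cls f c).card ∨ c ∈ exch col Γ f F L M then F.card
      else 0) ≤ F.card * (Γ.card + ((used f).filter (fun c => L < (cls f c).card)).card
        + (exch col Γ f F L M).card) := by
    rw [← sum_filter, sum_const, smul_eq_mul, mul_comm]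
    apply Nat.mul_le_mul_left
    have h6 : (used f).filter (fun c => c ∈ Γ ∨ L < (cls f c).card ∨ c ∈ exch col Γ f F L M)
        ⊆ (Γ ∪ (used f).filter (fun c => L < (cls f c).card)) ∪ exch col Γ f F L M := by
      intro c hc
      rw [mem_filter] at hc
      rw [mem_union, mem_union, mem_filter]
      tauto
    refine (card_le_card h6).trans ?_
    refine (card_union_le _ _).trans ?_
    have := card_union_le Γ ((used f).filter (fun c => L < (cls f c).card))
    omega
  omega

end H34RC
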