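import Pool.Agent.H34.RCb

/-!
Part c: one more level of freeable points.
-/

namespace H34RC

open Finset

variable {V K : Type*} [Fintype V] [DecidableEq V] [DecidableEq K]
variable {col : V → V → K} {Γ : Finset K} {f0 f : V → Option K} {q : ℕ}

lemma Base.select (B : Base col Γ f0 f q) {F : Finset V} {R : ℕ}
    (hF : Freeable col Γ f0 f F R) (hF0 : F ⊆ unc f0) (hR : 2 * q + 1 ≤ R) {L M : ℕ}
    (Z : Finset V) (Q : Finset K) :
    Q ⊆ exch col Γ f F L M → L * (Z.card + L * Q.card) < M →
      ∃ A : K → Finset V, (∀ c ∈ Q, A c ⊆ F ∧ Mono col c (A c) ∧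
        (A c).card = (cls f c).card ∧ Disjoint (A c) Z) ∧
        (∀ c ∈ Q, ∀ d ∈ Q, c ≠ d → Disjoint (A c) (A d)) := by
  classical
  induction Q using Finset.induction_on with
  | empty =>
    intro _ _
    refine ⟨fun _ => ∅, ?_, ?_⟩ <;> intro c hc <;> simp at hc
  | insert c Q hcQ ih =>
    intro hQ hM
    rw [card_insert_of_notMem hcQ] at hM
    have hQ' : Q ⊆ exch col Γ f F L M := fun d hd => hQ (mem_insert_of_mem hd)
    obtain ⟨A, hA, hAd⟩ := ih hQ' (by
      refine lt_of_le_of_lt ?_ hM
      apply Nat.mul_le_mul_left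
      apply Nat.add_le_add_left
      apply Nat.mul_le_mul_left
      omega)
    have hcE := hQ (mem_insert_self c Q)
    unfold exch at hcE
    rw [mem_filter] at hcE
    obtain ⟨hcu, hcΓ, hcL, hcM⟩ := hcE
    set Z' := Z ∪ Q.biUnion A with hZ'
    have hZ'c : Z'.card ≤ Z.card + L * Q.card := by
      refine (card_union_le _ _).trans ?_
      apply Nat.add_le_add_left
      refine card_biUnion_le.trans ?_
      rw [mul_comm, ← smul_eq_mul, ← sum_const]
      apply sum_le_sum
      intro d hd
      rw [(hA d hd).2.2.1]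
      have := hQ' hd
      unfold exch at this
      rw [mem_filter] at this
      exact this.2.2.1
    have hex : ∃ x ∈ rich col f F c, Disjoint (line col F c x) Z' := by
      by_contra hno
      push Not at hno
      have hsub : rich col f F c ⊆ (Z' ∩ F).biUnion (line col F c) := by
        intro x hx
        have h1 := hno x hx
        rw [not_disjoint_iff] at h1
        obtain ⟨y, hy1, hy2⟩ := h1
        have hxF : x ∈ F := by
          unfold rich at hx
          exact (mem_filter.1 hx).1
        rw [mem_biUnion]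
        refine ⟨y, mem_inter.2 ⟨hy2, line_sub hxF hy1⟩, ?_⟩
        unfold line at hy1 ⊢
        rw [mem_insert, mem_filter, mem_erase] at hy1 ⊢
        rcases hy1 with rfl | hy1
        · left; rfl
        · right
          refine ⟨⟨Ne.symm hy1.1.1, hxF⟩, ?_⟩
          rw [B.symm]
          exact hy1.2
      have h2 := card_le_card hsub
      have h3 : ((Z' ∩ F).biUnion (line col F c)).card ≤ L * Z'.card := by
        refine card_biUnion_le.trans ?_
        have h4 : ∑ a ∈ Z' ∩ F, (line col F c a).card ≤ ∑ _a ∈ Z' ∩ F, L := by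
          apply sum_le_sum
          intro a ha
          rw [line_card]
          exact (B.deg_le hF hF0 hR hcu (mem_inter.1 ha).2).trans hcL
        refine h4.trans ?_
        rw [sum_const, smul_eq_mul, mul_comm]
        exact Nat.mul_le_mul_left _ (card_le_card inter_subset_left)
      have h5 : L * Z'.card ≤ L * (Z.card + L * (Q.card + 1)) := by
        apply Nat.mul_le_mul_left
        refine hZ'c.trans ?_
        apply Nat.add_le_add_left
        apply Nat.mul_le_mul_left
        omega
      omega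
    obtain ⟨x, hx, hxd⟩ := hex
    have hxF : x ∈ F := by
      unfold rich at hx
      exact (mem_filter.1 hx).1
    have hxr : (cls f c).card ≤ deg col F c x + 1 := by
      unfold rich at hx
      exact (mem_filter.1 hx).2
    rw [hZ', disjoint_union_right] at hxd
    refine ⟨Function.update A c (line col F c x), ?_, ?_⟩
    · intro d hd
      by_cases hdc : d = c
      · subst hdc
        rw [Function.update_self]
        refine ⟨line_sub hxF, B.line_mono F d x, ?_, hxd.1⟩
        rw [line_card]
        have := B.deg_le hF hF0 hR hcu hxF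
        omega
      · rw [Function.update_of_ne hdc]
        exact hA d (mem_of_mem_insert_of_ne hd hdc)
    · intro d hd e he hde
      by_cases hdc : d = c
      · subst hdc
        rw [Function.update_self, Function.update_of_ne (Ne.symm hde)]
        have heQ := mem_of_mem_insert_of_ne he (Ne.symm hde)
        exact hxd.2.mono_right (subset_biUnion_of_mem A heQ)
      · by_cases hec : e = c
        · subst hec
          rw [Function.update_self, Function.update_of_ne hdc]
          have hdQ := mem_of_mem_insert_of_ne hd hdc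
          exact (hxd.2.mono_right (subset_biUnion_of_mem A hdQ)).symm
        · rw [Function.update_of_ne hdc, Function.update_of_ne hec]
          exact hAd d (mem_of_mem_insert_of_ne hd hdc) e (mem_of_mem_insert_of_ne he hec) hde

lemma Base.exchMany (B : Base col Γ f0 f q) {g0 : V → Option K}
    (hv : Valid col g0) (ha : Allowed Γ f0 g0) (hu : used g0 = used f)
    (hc : (unc g0).card = (unc f).card)
    (Q : Finset K) (D : Finset K) (X : Finset V) (A : K → Finset V)
    (hQΓ : ∀ c ∈ Q, c ∉ Γ) (hQu : ∀ c ∈ Q, c ∈ used f)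
    (hA1 : ∀ c ∈ Q, A c ⊆ unc g0) (hA2 : ∀ c ∈ Q, Mono col c (A c))
    (hA3 : ∀ c ∈ Q, (A c).card = (cls f c).card)
    (hA4 : ∀ c ∈ Q, ∀ d ∈ Q, c ≠ d → Disjoint (A c) (A d))
    (hA5 : ∀ c ∈ Q, ∀ d ∈ Q, Disjoint (A c) (cls f d))
    (hA6 : ∀ c ∈ Q, Disjoint (A c) X)
    (hQc : ∀ c ∈ Q, cls g0 c = cls f c) (hX : X ⊆ unc g0)
    (hDQ : ∀ d ∈ D, d ∉ Q) (hD : ∀ d ∈ D, cls g0 d = cls f d) (Q' : Finset K) :
    Q' ⊆ Q → ∃ g, Valid col g ∧ Allowed Γ f0 g ∧ used g = used f ∧
      (unc g).card = (unc f).card ∧ X ⊆ unc g ∧ (∀ c ∈ Q', cls f c ⊆ unc g) ∧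
      (∀ c ∈ Q, c ∉ Q' → A c ⊆ unc g ∧ cls g c = cls f c) ∧ (∀ d ∈ D, cls g d = cls f d) := by
  induction Q' using Finset.induction_on with
  | empty =>
    intro _
    refine ⟨g0, hv, ha, hu, hc, hX, ?_, ?_, hD⟩
    · intro c hc; simp at hc
    · intro c hc _
      exact ⟨hA1 c hc, hQc c hc⟩
  | insert c Q' hcQ' ih =>
    intro hQ'
    have hcQ : c ∈ Q := hQ' (mem_insert_self c Q')
    obtain ⟨g, hgv, hga, hgu, hgc, hgX, hg1, hg2, hg3⟩ := ih (fun d hd => hQ' (mem_insert_of_mem hd))
    obtain ⟨hAc, hcc⟩ := hg2 c hcQ hcQ'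
    have hAsub : A c ⊆ unc g ∪ cls g c := hAc.trans subset_union_left
    have hne : (A c).Nonempty := by
      rw [← card_pos, hA3 c hcQ]
      have := B.two c (hQu c hcQ)
      omega
    refine ⟨setCls g c (A c), valid_setCls hgv hAsub (hA2 c hcQ),
      allowed_setCls hga hAsub (hQΓ c hcQ), ?_, ?_, ?_, ?_, ?_, ?_⟩
    · rw [used_setCls hAsub hne, insert_eq_of_mem (by rw [hgu]; exact hQu c hcQ), hgu]
    · have := unc_setCls_card hAsub
      rw [hcc, hA3 c hcQ] at this
      omega
    · intro x hx
      rw [unc_setCls, mem_sdiff, mem_union]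
      exact ⟨Or.inl (hgX hx), fun h => disjoint_left.1 (hA6 c hcQ) h hx⟩
    · intro d hd x hx
      rw [unc_setCls, mem_sdiff, mem_union]
      rw [mem_insert] at hd
      rcases hd with rfl | hd
      · refine ⟨Or.inr (by rw [hcc]; exact hx), fun h => disjoint_left.1 (hA5 d hcQ d hcQ) h hx⟩
      · refine ⟨Or.inl (hg1 d hd hx), fun h => ?_⟩
        exact disjoint_left.1 (hA5 c hcQ d (hQ' (mem_insert_of_mem hd))) h hx
    · intro d hdQ hd
      rw [mem_insert, not_or] at hd
      obtain ⟨hd1, hd2⟩ := hg2 d hdQ hd.2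
      refine ⟨?_, ?_⟩
      · intro x hx
        rw [unc_setCls, mem_sdiff, mem_union]
        refine ⟨Or.inl (hd1 hx), fun h => ?_⟩
        exact disjoint_left.1 (hA4 c hcQ d hdQ (Ne.symm hd.1)) h hx
      · rw [cls_setCls_ne hAsub hd.1]
        exact hd2
    · intro d hd
      have hdc : d ≠ c := by
        rintro rfl
        exact hDQ d hd hcQ
      rw [cls_setCls_ne hAsub hdc]
      exact hg3 d hd

/-- One more level. -/
theorem Base.step (B : Base col Γ f0 f q) {F : Finset V} {R R' L M : ℕ}
    (hF : Freeable col Γ f0 f F R) (hF0 : F ⊆ unc f0) (hR : 2 * q + 1 ≤ R)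
    (hRR : (2 * L + 1) * R' ≤ R) (hM : L * ((2 * L + 1) * R') < M) (hu : unc f ⊆ F) :
    Freeable col Γ f0 f (unc f ∪ (exch col Γ f F L M).biUnion (cls f)) R' := by
  classical
  intro T D hT hTD hTd
  set E := exch col Γ f F L M with hE
  have hEu : ∀ c ∈ E, c ∈ used f ∧ c ∉ Γ ∧ (cls f c).card ≤ L := by
    intro c hc
    rw [hE] at hc
    unfold exch at hc
    rw [mem_filter] at hc
    exact ⟨hc.1, hc.2.1, hc.2.2.1⟩
  set Q := E.filter (fun c => ∃ x ∈ T, f x = some c) with hQdef
  have hQE : Q ⊆ E := filter_subset _ _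
  have hQT : Q.card ≤ T.card := by
    have h1 : Q ⊆ eraseNone (T.image f) := by
      intro c hc
      rw [hQdef, mem_filter] at hc
      rw [mem_eraseNone, mem_image]
      exact hc.2
    refine (card_le_card h1).trans ?_
    refine (card_eraseNone_le _).trans ?_
    exact card_image_le
  have hQs : ∑ c ∈ Q, (cls f c).card ≤ L * T.card := by
    have h1 : ∑ c ∈ Q, (cls f c).card ≤ ∑ _c ∈ Q, L := sum_le_sum fun c hc => (hEu c (hQE hc)).2.2
    rw [sum_const, smul_eq_mul, mul_comm] at h1
    exact h1.trans (Nat.mul_le_mul_left _ hQT)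
  have hDQ : ∀ d ∈ D, d ∉ Q := by
    intro d hd hdQ
    rw [hQdef, mem_filter] at hdQ
    obtain ⟨-, x, hx, hxd⟩ := hdQ
    exact hTd x hx d hd hxd
  have hdisj : Disjoint D Q := disjoint_left.2 hDQ
  have hsum : ∑ d ∈ D ∪ Q, (cls f d).card = ∑ d ∈ D, (cls f d).card + ∑ d ∈ Q, (cls f d).card :=
    sum_union hdisj
  have hLT : T.card + ∑ d ∈ D, (cls f d).card + 2 * (L * T.card) ≤ (2 * L + 1) * R' := by
    have : T.card ≤ R' := by omega
    nlinarith [Nat.mul_le_mul_left L this]
  set Z := T ∪ (D ∪ Q).biUnion (cls f) with hZ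
  have hZc : Z.card + L * Q.card ≤ (2 * L + 1) * R' := by
    have h1 : Z.card ≤ T.card + ∑ d ∈ D ∪ Q, (cls f d).card := by
      refine (card_union_le _ _).trans ?_
      exact Nat.add_le_add_left card_biUnion_le _
    have h2 := Nat.mul_le_mul_left L hQT
    omega
  obtain ⟨A, hA, hAd⟩ := B.select hF hF0 hR (L := L) (M := M) Z Q hQE
    (lt_of_le_of_lt (Nat.mul_le_mul_left _ hZc) hM)
  have hclsZ : ∀ d ∈ D ∪ Q, cls f d ⊆ Z := by
    intro d hd
    rw [hZ]
    exact (subset_biUnion_of_mem (cls f) hd).trans subset_union_right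
  obtain ⟨g0, hgv, hga, hgu, hgc, hgT, hgD⟩ := hF ((T ∩ unc f) ∪ Q.biUnion A) (D ∪ Q)
    (by
      apply union_subset
      · exact inter_subset_right.trans hu
      · rw [biUnion_subset]
        intro c hc
        exact (hA c hc).1)
    (by
      have h1 : ((T ∩ unc f) ∪ Q.biUnion A).card ≤ T.card + ∑ c ∈ Q, (cls f c).card := by
        refine (card_union_le _ _).trans ?_
        apply add_le_add
        · exact card_le_card inter_subset_left
        · refine card_biUnion_le.trans ?_
          apply sum_le_sum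
          intro c hc
          exact (hA c hc).2.2.1.le
      omega)
    (by
      intro x hx d hd hxd
      rw [mem_union, mem_inter, mem_biUnion] at hx
      rcases hx with hx | ⟨c, hc, hx⟩
      · rw [mem_unc] at hx
        rw [hx.2] at hxd
        simp at hxd
      · exact disjoint_left.1 (hA c hc).2.2.2 hx (hclsZ d hd (mem_cls.2 hxd)))
  obtain ⟨g, h1, h2, h3, h4, h5, h6, -, h8⟩ := B.exchMany hgv hga hgu hgc Q D (T ∩ unc f) A
    (fun c hc => (hEu c (hQE hc)).2.1) (fun c hc => (hEu c (hQE hc)).1)
    (fun c hc => ((subset_biUnion_of_mem A hc).trans subset_union_right).trans hgT)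
    (fun c hc => (hA c hc).2.1) (fun c hc => (hA c hc).2.2.1) hAd
    (fun c hc d hd => (hA c hc).2.2.2.mono_right (hclsZ d (mem_union_right _ hd)))
    (fun c hc => (hA c hc).2.2.2.mono_right
      (inter_subset_left.trans (by rw [hZ]; exact subset_union_left)))
    (fun c hc => hgD c (mem_union_right _ hc)) (subset_union_left.trans hgT) hDQ
    (fun d hd => hgD d (mem_union_left _ hd)) Q (Subset.refl Q)
  refine ⟨g, h1, h2, h3, h4, ?_, h8⟩
  intro x hx
  have hxF := hT hx
  rw [mem_union, mem_biUnion] at hxF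
  rcases hxF with hxu | ⟨c, hc, hxc⟩
  · exact h5 (mem_inter.2 ⟨hx, hxu⟩)
  · have hcQ : c ∈ Q := by
      rw [hQdef, mem_filter]
      exact ⟨hc, x, hx, mem_cls.1 hxc⟩
    exact h6 c hcQ hxc

/-- Size of the next level. -/
lemma Base.next_card (B : Base col Γ f0 f q) (F : Finset V) (L M : ℕ) :
    (unc f).card + 2 * (exch col Γ f F L M).card ≤
      (unc f ∪ (exch col Γ f F L M).biUnion (cls f)).card := by
  classical
  rw [card_union_of_disjoint]
  · apply Nat.add_le_add_left
    rw [card_biUnion]
    · rw [mul_comm, ← smul_eq_mul, ← sum_const]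
      apply sum_le_sum
      intro c hc
      unfold exch at hc
      rw [mem_filter] at hc
      exact B.two c hc.1
    · intro a _ b _ hab
      rw [Function.onFun, disjoint_left]
      intro x hx hx2
      rw [mem_cls] at hx hx2
      rw [hx] at hx2
      exact hab (Option.some_injective _ hx2)
  · rw [disjoint_left]
    intro x hx hx2
    rw [mem_biUnion] at hx2
    obtain ⟨c, -, hc⟩ := hx2
    rw [mem_unc] at hx
    rw [mem_cls, hx] at hc
    simp at hc

lemma Base.next_sub (B : Base col Γ f0 f q) (F : Finset V) (L M : ℕ) :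
    unc f ∪ (exch col Γ f F L M).biUnion (cls f) ⊆ unc f0 := by
  apply union_subset B.unc_sub
  rw [biUnion_subset]
  intro c hc
  unfold exch at hc
  rw [mem_filter] at hc
  exact B.cls_sub hc.2.1

end H34RC
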