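import Pool.Agent.H34.RCc

/-!
Part d: iteration of the levels, choice of the parameters, and the bound for the cost.
-/

namespace H34RC

open Finset

variable {V K : Type*} [Fintype V] [DecidableEq V] [DecidableEq K]
variable {col : V → V → K} {Γ : Finset K} {f0 f : V → Option K} {q : ℕ}

private lemma exists_min {α : Type*} (P : α → Prop) (φ : α → ℕ) (h : ∃ x, P x) :
    ∃ x, P x ∧ ∀ y, P y → φ x ≤ φ y := by
  classical
  have h2 : ∃ k, ∃ x, P x ∧ φ x = k := by
    obtain ⟨x, hx⟩ := h
    exact ⟨φ x, x, hx, rfl⟩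
  obtain ⟨x, hx, hxk⟩ := Nat.find_spec h2
  refine ⟨x, hx, fun y hy => ?_⟩
  rw [hxk]
  exact Nat.find_min' h2 ⟨y, hy, rfl⟩

/-- Existence of the standing situation. -/
lemma exists_base (col : V → V → K) (hs : ∀ x y, col x y = col y x)
    (ht : ∀ x y z, x ≠ y → y ≠ z → x ≠ z → col x y = col y z → col x z = col x y)
    (q : ℕ) (hq : 2 ≤ q) : ∃ Γ f0 f, Base col Γ f0 f q := by
  classical
  obtain ⟨f0, ⟨hv0, hb0⟩, hmin0⟩ := exists_min
    (fun g : V → Option K => Valid col g ∧ ∀ c ∈ used g, q ≤ (cls g c).card)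
    (fun g => (unc g).card) ⟨fun _ => none, by
      constructor
      · intro c x hx
        rw [mem_cls] at hx
        simp at hx
      · intro c hc
        rw [mem_used] at hc
        simp at hc⟩
  obtain ⟨f1, ⟨hv1, ha1⟩, hmin1⟩ := exists_min
    (fun g : V → Option K => Valid col g ∧ Allowed (used f0) f0 g) cost
    ⟨f0, hv0, fun _ _ => rfl⟩
  obtain ⟨f, ⟨hv, ha, hc⟩, hmin⟩ := exists_min
    (fun g : V → Option K => Valid col g ∧ Allowed (used f0) f0 g ∧ cost g = cost f1)
    (fun g => (used g).card) ⟨f1, hv1, ha1, rfl⟩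
  refine ⟨used f0, f0, f, hs, ht, hv, ha, ?_, rfl, ?_, ?_, hb0, ?_, hq⟩
  · intro h h1 h2
    rw [hc]
    exact hmin1 h ⟨h1, h2⟩
  · intro c hcΓ T hT hTu
    by_contra hlt
    push Not at hlt
    have hsub : T ⊆ unc f0 ∪ cls f0 c := hTu.trans subset_union_left
    have hTne : T.Nonempty := by
      rw [← card_pos]
      omega
    have h1 := hmin0 (setCls f0 c T) ⟨valid_setCls hv0 hsub hT, by
      intro d hd
      by_cases hdc : d = c
      · subst hdc
        rw [cls_setCls_same]
        have := hb0 d hcΓ
        omega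
      · rw [cls_setCls_ne hsub hdc]
        apply hb0
        rw [used_setCls hsub hTne, mem_insert] at hd
        exact hd.resolve_left hdc⟩
    have h2 := unc_setCls_card hsub
    omega
  · intro c hcΓ T hT hTu
    by_contra hlt
    push Not at hlt
    have hsub : T ⊆ unc f0 ∪ cls f0 c := hTu.trans subset_union_left
    have hTne : T.Nonempty := by
      rw [← card_pos]
      omega
    have h1 := hmin0 (setCls f0 c T) ⟨valid_setCls hv0 hsub hT, by
      intro d hd
      by_cases hdc : d = c
      · subst hdc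
        rw [cls_setCls_same]
        exact hlt
      · rw [cls_setCls_ne hsub hdc]
        apply hb0
        rw [used_setCls hsub hTne, mem_insert] at hd
        exact hd.resolve_left hdc⟩
    have h2 := unc_setCls_card hsub
    rw [not_used_cls hcΓ, card_empty] at h2
    omega
  · intro c hcu
    by_contra hlt
    push Not at hlt
    have hpos : 1 ≤ (cls f c).card := by
      rw [mem_used_iff] at hcu
      exact card_pos.2 hcu
    have hcΓ : c ∉ used f0 := by
      intro h
      have h1 := hb0 c h
      rw [← ha c h] at h1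
      omega
    have hsub : (∅ : Finset V) ⊆ unc f ∪ cls f c := empty_subset _
    have hused : used (setCls f c ∅) = (used f).erase c := by
      ext d
      rw [mem_erase, mem_used_iff, mem_used_iff]
      by_cases hdc : d = c
      · subst hdc
        rw [cls_setCls_same]
        simp
      · rw [cls_setCls_ne hsub hdc]
        simp [hdc]
    have h2 := unc_setCls_card hsub
    rw [card_empty] at h2
    have h3 : (used (setCls f c ∅)).card + 1 = (used f).card := by
      rw [hused, card_erase_add_one hcu]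
    have h4 : Mono col c (∅ : Finset V) := by
      intro x hx
      simp at hx
    have h5 := hmin (setCls f c ∅) ⟨valid_setCls hv hsub h4, allowed_setCls ha hsub hcΓ, by
      unfold cost at hc ⊢
      omega⟩
    omega

/-- The levels of freeable points. -/
def Fs (col : V → V → K) (Γ : Finset K) (f : V → Option K) (L M : ℕ) : ℕ → Finset V
  | 0 => unc f
  | k + 1 => unc f ∪ (exch col Γ f (Fs col Γ f L M k) L M).biUnion (cls f)

lemma Base.Fs_sub (B : Base col Γ f0 f q) (L M k : ℕ) : Fs col Γ f L M k ⊆ unc f0 := by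
  cases k with
  | zero => exact B.unc_sub
  | succ k => exact B.next_sub _ L M

lemma unc_Fs (L M k : ℕ) : unc f ⊆ Fs col Γ f L M k := by
  cases k with
  | zero => exact Subset.refl _
  | succ k => exact subset_union_left

lemma Base.Fs_free (B : Base col Γ f0 f q) (L M J : ℕ)
    (hM : L * ((2 * L + 1) ^ J * (2 * q + 1)) < M) (k : ℕ) (hk : k ≤ J) :
    Freeable col Γ f0 f (Fs col Γ f L M k) ((2 * L + 1) ^ (J - k) * (2 * q + 1)) := by
  induction k with
  | zero => exact B.freeable_unc _
  | succ k ih =>
    have ih' := ih (by omega)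
    have hJ : J - k = (J - (k + 1)) + 1 := by omega
    have h1 : (2 * L + 1) * ((2 * L + 1) ^ (J - (k + 1)) * (2 * q + 1))
        = (2 * L + 1) ^ (J - k) * (2 * q + 1) := by
      rw [hJ, pow_succ]
      ring
    refine B.step ih' (B.Fs_sub L M k) ?_ h1.le ?_ (unc_Fs L M k)
    · exact Nat.le_mul_of_pos_left _ (by positivity)
    · rw [h1]
      refine lt_of_le_of_lt ?_ hM
      apply Nat.mul_le_mul_left
      apply Nat.mul_le_mul_right
      exact Nat.pow_le_pow_right (by omega) (by omega)

/-- The cost of a minimal configuration, with all parameters explicit. -/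
lemma Base.bound (B : Base col Γ f0 f q) (L M J : ℕ) (ε : ℝ) (hε : 0 < ε)
    (hM : L * ((2 * L + 1) ^ J * (2 * q + 1)) < M) (hL : 4 / ε ≤ (L : ℝ))
    (hJ : 1 ≤ 2 ^ J * (2 * ε)) (n : ℕ) (hn : n = Fintype.card V) (hn0 : 0 < n)
    (h1 : 1 ≤ ε * n / 4) (h2 : (n : ℝ) / q ≤ ε * n / 4) (h3 : (M : ℝ) ≤ ε ^ 2 * n / 2) :
    (cost f : ℝ) ≤ (1 / 2 + ε) * n := by
  classical
  by_contra hcost
  push Not at hcost
  have hnR : (0 : ℝ) < n := by exact_mod_cast hn0
  set u := (unc f).card with hu
  set C := (used f).card with hC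
  set w := ∑ c ∈ used f, ((cls f c).card - 2) with hw
  have hsplit : n = u + (w + 2 * C) := by
    rw [hn, card_split f]
    congr 1
    rw [hw, hC, mul_comm, ← smul_eq_mul, ← sum_const, ← sum_add_distrib]
    apply sum_congr rfl
    intro c hc
    have := B.two c hc
    omega
  have hsplitR : (n : ℝ) = u + (w + 2 * C) := by exact_mod_cast hsplit
  have hcR : (cost f : ℝ) = u + C := by
    unfold cost
    push_cast
    rfl
  have hδ : 2 * ε * n < (u : ℝ) - w := by
    rw [hcR] at hcost
    nlinarith
  -- the number of frozen colours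
  have hΓ : (Γ.card : ℝ) ≤ ε * n / 4 := by
    have hq := B.hq
    have hqR : (0 : ℝ) < q := by exact_mod_cast (by omega : 0 < q)
    refine le_trans ?_ h2
    rw [le_div_iff₀ hqR]
    have h5 : Γ.card * q ≤ n := by
      rw [hn, card_split f0, ← B.gam]
      have h6 : Γ.card * q ≤ ∑ c ∈ Γ, (cls f0 c).card := by
        rw [← smul_eq_mul, ← sum_const]
        exact sum_le_sum B.big3
      omega
    exact_mod_cast h5
  -- the number of long classes
  have hB : (((used f).filter (fun c => L < (cls f c).card)).card : ℝ) ≤ ε * n / 4 := by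
    have hLpos : (0 : ℝ) < L := lt_of_lt_of_le (by positivity) hL
    have h5 : ((used f).filter (fun c => L < (cls f c).card)).card * L ≤ n := by
      rw [hn, card_split f]
      have h6 : ((used f).filter (fun c => L < (cls f c).card)).card * L
          ≤ ∑ c ∈ (used f).filter (fun c => L < (cls f c).card), (cls f c).card := by
        rw [← smul_eq_mul, ← sum_const]
        apply sum_le_sum
        intro c hc
        exact (mem_filter.1 hc).2.le
      have h7 : ∑ c ∈ (used f).filter (fun c => L < (cls f c).card), (cls f c).card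
          ≤ ∑ c ∈ used f, (cls f c).card := sum_le_sum_of_subset (filter_subset _ _)
      omega
    have h8 : (((used f).filter (fun c => L < (cls f c).card)).card : ℝ) * L ≤ n := by
      exact_mod_cast h5
    have h9 : 4 ≤ ε * L := by
      rw [div_le_iff₀ hε] at hL
      linarith
    have h10 : (((used f).filter (fun c => L < (cls f c).card)).card : ℝ) * 4
        ≤ (((used f).filter (fun c => L < (cls f c).card)).card : ℝ) * (ε * L) :=
      mul_le_mul_of_nonneg_left h9 (Nat.cast_nonneg _)
    nlinarith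
  -- the levels grow
  have key : ∀ k ≤ J, 2 ^ k * ((u : ℝ) - w) ≤ ((Fs col Γ f L M k).card : ℝ) - w := by
    intro k
    induction k with
    | zero =>
      intro _
      rw [pow_zero, one_mul]
      exact le_refl _
    | succ k ih =>
      intro hk
      have ih' := ih (by omega)
      have hcount := B.count (B.Fs_free L M J hM k (by omega)) (B.Fs_sub L M k)
        (Nat.le_mul_of_pos_left _ (by positivity)) L M
      rw [← hC, ← hw] at hcount
      have hnext := B.next_card (Fs col Γ f L M k) L M
      rw [← hu] at hnext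
      change _ ≤ (Fs col Γ f L M (k + 1)).card at hnext
      have huF : u ≤ (Fs col Γ f L M k).card := card_le_card (unc_Fs L M k)
      have huFR : (u : ℝ) ≤ (Fs col Γ f L M k).card := by exact_mod_cast huF
      set F := (Fs col Γ f L M k).card with hF
      set E := (exch col Γ f (Fs col Γ f L M k) L M).card with hE
      set G := (Fs col Γ f L M (k + 1)).card with hG
      have hwR : (0 : ℝ) ≤ w := Nat.cast_nonneg _
      have hFpos : (0 : ℝ) < F := by
        have : 0 < 2 * ε * n := by positivity
        linarith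
      have hFpos' : 1 ≤ F := by exact_mod_cast hFpos
      have hcountR : (F : ℝ) * (F - 1) ≤ F * w
          + F * (Γ.card + ((used f).filter (fun c => L < (cls f c).card)).card + E) + M * C := by
        have h5 : ((F * (F - 1) : ℕ) : ℝ) ≤ ((F * w
          + F * (Γ.card + ((used f).filter (fun c => L < (cls f c).card)).card + E)
          + M * C : ℕ) : ℝ) := by exact_mod_cast hcount
        push_cast [Nat.cast_sub hFpos'] at h5
        exact h5
      have hnextR : (u : ℝ) + 2 * E ≤ G := by exact_mod_cast hnext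
      set X : ℝ := F - 1 - w - Γ.card - ((used f).filter (fun c => L < (cls f c).card)).card - E
        with hX
      have hFX : (F : ℝ) * X ≤ M * n := by
        have h5 : (F : ℝ) * X ≤ M * C := by
          rw [hX]
          nlinarith
        have h6 : (C : ℝ) ≤ n := by
          have : C ≤ n := by omega
          exact_mod_cast this
        exact h5.trans (mul_le_mul_of_nonneg_left h6 (Nat.cast_nonneg _))
      have hXle : X ≤ ε * n / 4 := by
        by_contra hX2
        push Not at hX2
        have h5 : 2 * ε * n * (ε * n / 4) < F * X := by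
          apply mul_lt_mul'' _ hX2 (by positivity) (by positivity)
          linarith
        have h6 : (M : ℝ) * n ≤ ε ^ 2 * n / 2 * n := mul_le_mul_of_nonneg_right h3 hnR.le
        have h7 : 2 * ε * n * (ε * n / 4) = ε ^ 2 * n / 2 * n := by ring
        linarith
      have hgoal : 2 * ((F : ℝ) - w) ≤ G - w := by
        rw [hX] at hXle
        linarith
      rw [pow_succ]
      linarith
  have hfin := key J le_rfl
  have hFn : ((Fs col Γ f L M J).card : ℝ) ≤ n := by
    rw [hn]
    exact_mod_cast card_le_univ _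
  have hwR : (0 : ℝ) ≤ w := Nat.cast_nonneg _
  have h4 : (2 : ℝ) ^ J * (2 * ε * n) < 2 ^ J * ((u : ℝ) - w) :=
    mul_lt_mul_of_pos_left hδ (by positivity)
  have h5 : (n : ℝ) ≤ 2 ^ J * (2 * ε * n) := by
    have : (1 : ℝ) * n ≤ 2 ^ J * (2 * ε) * n := mul_le_mul_of_nonneg_right hJ hnR.le
    linarith
  linarith

/-- The abstract theorem. -/
theorem abstract_bound (ε : ℝ) (hε : 0 < ε) : ∃ n0 : ℕ, ∀ (V K : Type) [Fintype V]
    [DecidableEq V] [DecidableEq K] (col : V → V → K), (∀ x y, col x y = col y x) →
    (∀ x y z, x ≠ y → y ≠ z → x ≠ z → col x y = col y z → col x z = col x y) →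
    n0 ≤ Fintype.card V →
    ∃ f : V → Option K, Valid col f ∧ (cost f : ℝ) ≤ (1 / 2 + ε) * Fintype.card V := by
  obtain ⟨L, hL⟩ := exists_nat_ge (4 / ε)
  obtain ⟨J, hJ⟩ : ∃ J : ℕ, 1 ≤ 2 ^ J * (2 * ε) := by
    obtain ⟨J, hJ⟩ := pow_unbounded_of_one_lt (1 / (2 * ε)) (one_lt_two (α := ℝ))
    refine ⟨J, ?_⟩
    rw [div_lt_iff₀ (by positivity)] at hJ
    exact hJ.le
  have hLpos : (0 : ℝ) < L := lt_of_lt_of_le (by positivity) hL
  set P : ℝ := L * (2 * L + 1) ^ J with hP
  have hPpos : 0 < P := by positivity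
  set η : ℝ := ε ^ 2 / (8 * P) with hη
  have hηpos : 0 < η := by positivity
  obtain ⟨n0, hn0⟩ := exists_nat_ge (4 / ε + 4 / (ε * η) + 4 * (7 * P + 1) / ε ^ 2 + 1)
  refine ⟨n0, ?_⟩
  intro V K _ _ _ col hs ht hcard
  set n := Fintype.card V with hn
  have hnR : 4 / ε + 4 / (ε * η) + 4 * (7 * P + 1) / ε ^ 2 + 1 ≤ (n : ℝ) :=
    hn0.trans (by exact_mod_cast hcard)
  have ha : 0 < 4 / ε := by positivity
  have hb : 0 < 4 / (ε * η) := by positivity
  have hc : 0 < 4 * (7 * P + 1) / ε ^ 2 := by positivity
  have hnpos : (0 : ℝ) < n := by linarith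
  have hn1 : 0 < n := by exact_mod_cast hnpos
  set q : ℕ := ⌈η * n⌉₊ + 2 with hq
  have hq1 : η * n ≤ q := by
    rw [hq]
    push_cast
    have := Nat.le_ceil (η * n)
    linarith
  have hq2 : (q : ℝ) ≤ η * n + 3 := by
    rw [hq]
    push_cast
    have := Nat.ceil_lt_add_one (by positivity : (0 : ℝ) ≤ η * n)
    linarith
  obtain ⟨Γ, f0, f, B⟩ := exists_base col hs ht q (by omega)
  refine ⟨f, B.valid, ?_⟩
  refine B.bound L (L * ((2 * L + 1) ^ J * (2 * q + 1)) + 1) J ε hε (by omega) hL hJ n hn hn1
    ?_ ?_ ?_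
  · have : 4 / ε ≤ (n : ℝ) := by linarith
    rw [div_le_iff₀ hε] at this
    linarith
  · have h1 : 4 / (ε * η) ≤ (n : ℝ) := by linarith
    rw [div_le_iff₀ (by positivity)] at h1
    have hqpos : (0 : ℝ) < q := lt_of_lt_of_le (by positivity) hq1
    rw [div_le_iff₀ hqpos]
    have h2 : ε * n / 4 * (η * n) ≤ ε * n / 4 * q :=
      mul_le_mul_of_nonneg_left hq1 (by positivity)
    have h3 : (n : ℝ) * 4 ≤ n * (n * (ε * η)) := mul_le_mul_of_nonneg_left h1 hnpos.le
    nlinarith
  · push_cast
    have h1 : 4 * (7 * P + 1) / ε ^ 2 ≤ (n : ℝ) := by linarith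
    rw [div_le_iff₀ (by positivity)] at h1
    have h2 : (L : ℝ) * ((2 * L + 1) ^ J * (2 * q + 1)) + 1 = P * (2 * q + 1) + 1 := by
      rw [hP]
      ring
    rw [h2]
    have h3 : P * (2 * q + 1) ≤ P * (2 * (η * n + 3) + 1) :=
      mul_le_mul_of_nonneg_left (by linarith) hPpos.le
    have h4 : P * η = ε ^ 2 / 8 := by
      rw [hη]
      field_simp
    have h5 : P * (2 * (η * n + 3) + 1) = 2 * (P * η) * n + 7 * P := by ring
    rw [h5, h4] at h3
    nlinarith

end H34RC
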